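import Pool.Agent.W5h77.MB.Mu

/-!
# `p = 2`: an involution which inverts a group of odd order
-/

set_option autoImplicit false

namespace Pool.Agent.W5h33.TW

open Subgroup Pool.Agent.Q60.MU Pool.Agent.W5h77.MB
open Pool.Agent.X310.Mu (nm nm_eq nm_of_fix eq_one_of_cop comms)

variable {V : Type} [CommGroup V]

/-- `v ↦ γ(v) v⁻¹`. -/
def psi (γ : MulAut V) : V →* V where
  toFun v := γ v * v⁻¹
  map_one' := by rw [map_one, inv_one, mul_one]
  map_mul' a b := by
    rw [map_mul, mul_inv]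
    exact mul_mul_mul_comm _ _ _ _

theorem psi_apply (γ : MulAut V) (v : V) : psi γ v = γ v * v⁻¹ := rfl

theorem inv_eq (hV : ∀ v : V, v ^ 2 = 1) (v : V) : v⁻¹ = v := by
  have h := hV v
  rw [pow_two] at h
  exact inv_eq_of_mul_eq_one_left h

variable [Finite V]

theorem nu_eq (D : Subgroup (MulAut V)) [Fintype D] (v : V) : nu D v = ∏ δ : D, (δ : MulAut V) v :=
  nm_eq (MonoidHom.id (MulAut V)) D v

theorem nu_psi (γ : MulAut V) (D : Subgroup (MulAut V)) (hDγ : ∀ δ ∈ D, γ * δ = δ⁻¹ * γ) (v : V) :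
    nu D (γ v) = γ (nu D v) := by
  classical
  have : Fintype D := Fintype.ofFinite D
  rw [nu_eq, nu_eq, map_prod]
  refine Fintype.prod_equiv (Equiv.inv D) _ _ fun δ => ?_
  have h1 := hDγ _ (inv_mem δ.2)
  rw [inv_inv] at h1
  show ((δ : MulAut V) * γ) v = (γ * ((δ⁻¹ : D) : MulAut V)) v
  rw [InvMemClass.coe_inv, h1]

/-- The fixed points of the involution. -/
theorem fixed_mem {γ : MulAut V} (hV : ∀ v : V, v ^ 2 = 1) (D : Subgroup (MulAut V))
    (hD : ¬ 2 ∣ Nat.card D) (hDγ : ∀ δ ∈ D, γ * δ = δ⁻¹ * γ) {y : V} (hy : γ y = y)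
    (hN : nu D y = 1) : y ∈ (nu D).ker.map (psi γ) := by
  classical
  have : Fintype D := Fintype.ofFinite D
  set T := (nu D).ker.map (psi γ) with hT
  have hφ : ∀ δ : D, QuotientGroup.mk' T ((δ : MulAut V) y) *
      QuotientGroup.mk' T (((δ⁻¹ : D) : MulAut V) y) = 1 := by
    intro δ
    rw [← map_mul]
    apply (QuotientGroup.eq_one_iff _).2
    refine ⟨(δ : MulAut V) y, ?_, ?_⟩
    · show (δ : MulAut V) y ∈ (nu D).ker
      rw [MonoidHom.mem_ker, nu_act D δ.2, hN]
    · rw [psi_apply, inv_eq hV]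
      have h1 : γ ((δ : MulAut V) y) = ((δ⁻¹ : D) : MulAut V) y := by
        show (γ * (δ : MulAut V)) y = _
        rw [hDγ _ δ.2, InvMemClass.coe_inv]
        show (δ : MulAut V)⁻¹ (γ y) = _
        rw [hy]
      rw [h1, mul_comm]
  have h1 : ∏ δ : D, QuotientGroup.mk' T ((δ : MulAut V) y) = 1 := by
    rw [← map_prod, ← nu_eq, hN, map_one]
  have h2 : ∏ δ ∈ Finset.univ.erase (1 : D), QuotientGroup.mk' T ((δ : MulAut V) y) = 1 := by
    refine Finset.prod_involution (fun δ _ => δ⁻¹) (fun δ _ => hφ δ) ?_ ?_ ?_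
    · intro δ hδ _ h
      apply (Finset.mem_erase.1 hδ).1
      have h3 : δ ^ 2 = 1 := by
        rw [pow_two]
        nth_rewrite 1 [← h]
        exact inv_mul_cancel δ
      have h4 : orderOf δ ∣ 2 := orderOf_dvd_of_pow_eq_one h3
      have h5 : orderOf δ ∣ Nat.card D := orderOf_dvd_natCard δ
      rcases (Nat.dvd_prime Nat.prime_two).1 h4 with h6 | h6
      · exact orderOf_eq_one_iff.1 h6
      · rw [h6] at h5
        exact absurd h5 hD
    · intro δ hδ
      refine Finset.mem_erase.2 ⟨fun h => (Finset.mem_erase.1 hδ).1 (inv_eq_one.1 h),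
        Finset.mem_univ _⟩
    · intro δ _
      exact inv_inv δ
  have h3 := Finset.mul_prod_erase Finset.univ
    (fun δ : D => QuotientGroup.mk' T ((δ : MulAut V) y)) (Finset.mem_univ 1)
  rw [h1, h2, mul_one] at h3
  exact (QuotientGroup.eq_one_iff _).1 h3

/-- The bound for the order. -/
theorem card_two {γ : MulAut V} (hγ : γ * γ = 1) (hV : ∀ v : V, v ^ 2 = 1)
    (D : Subgroup (MulAut V)) (hD : ¬ 2 ∣ Nat.card D) (hDγ : ∀ δ ∈ D, γ * δ = δ⁻¹ * γ) {C1 C2 : ℕ}
    (h1 : ∀ S : Subgroup V, (∀ v, γ v * v⁻¹ ∈ S) → (∀ v, v * γ v = 1 → v ∈ S) → S.index ≤ C1)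
    (h2 : (nu D).ker.index ≤ C2) : Nat.card V ≤ C1 ^ 2 * C2 := by
  classical
  set N := nu D with hNdef
  set T := N.ker.map (psi γ) with hT
  have hNN : ∀ v, N (N v) = N v := by
    intro v
    have h3 : ∀ δ ∈ D, (MonoidHom.id (MulAut V)) δ (N v) = N v := by
      intro δ hδ
      have : Fintype D := Fintype.ofFinite D
      show δ (N v) = N v
      rw [hNdef, nu_eq, map_prod]
      refine Fintype.prod_equiv (Equiv.mulLeft (⟨δ, hδ⟩ : D)) _ _ fun σ => ?_
      rfl
    have h4 : N (N v) = (N v) ^ Nat.card D := nm_of_fix _ _ _ h3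
    rw [h4]
    obtain ⟨k, hk⟩ := (Nat.odd_iff.2 (Nat.two_dvd_ne_zero.1 hD) : Odd (Nat.card D))
    rw [hk, pow_succ, pow_mul, hV, one_pow, one_mul]
  let π : V →* V := MonoidHom.id V * N
  have hπ : ∀ v, π v = v * N v := fun v => rfl
  have hπN : ∀ v, N (π v) = 1 := by
    intro v
    rw [hπ, map_mul, hNN, ← pow_two, hV]
  have hπr : π.range = N.ker := by
    ext v
    constructor
    · rintro ⟨u, rfl⟩
      exact hπN u
    · intro hv
      refine ⟨v, ?_⟩
      rw [hπ, MonoidHom.mem_ker.1 hv, mul_one]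
  have hγN : ∀ v, N (γ v) = γ (N v) := nu_psi γ D hDγ
  have hγγ : ∀ v, γ (γ v) = v := by
    intro v
    rw [← MulAut.mul_apply, hγ, MulAut.one_apply]
  have hTN : T ≤ N.ker := by
    rintro _ ⟨z, hz, rfl⟩
    have hz' : N z = 1 := hz
    rw [MonoidHom.mem_ker, psi_apply, map_mul, map_inv, hγN, hz', map_one, inv_one, mul_one]
  have hS := h1 (T.comap π) (fun v => by
      rw [mem_comap]
      refine ⟨π v, hπN v, ?_⟩
      rw [psi_apply, map_mul, map_inv, hπ (γ v), hπ v, hγN, map_mul]) (fun v hv => by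
      rw [mem_comap]
      have h3 : γ v = v := by
        rw [eq_inv_of_mul_eq_one_right hv, inv_eq hV]
      refine fixed_mem hV D hD hDγ ?_ (hπN v)
      rw [hπ, map_mul, ← hγN, h3])
  rw [index_comap, hπr] at hS
  have hTc : Nat.card T ≤ T.relIndex N.ker := by
    have h3 : Nat.card T = (psi γ).ker.relIndex N.ker := by
      rw [hT, ← relIndex_ker]
    rw [h3]
    refine relIndex_le_of_le_left ?_ ?_
    · rintro _ ⟨z, hz, rfl⟩
      rw [MonoidHom.mem_ker, psi_apply, psi_apply, map_mul, map_inv, hγγ, mul_inv, inv_inv]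
      have h4 : z * (γ z)⁻¹ * ((γ z)⁻¹ * z) = z ^ 2 * (γ z)⁻¹ ^ 2 := by
        rw [pow_two, pow_two, mul_comm (γ z)⁻¹ z, mul_mul_mul_comm]
      rw [h4, hV, hV, one_mul]
    · have : Finite N.ker := inferInstance
      exact Subgroup.index_ne_zero_of_finite
  have h5 : Nat.card N.ker = Nat.card T * T.relIndex N.ker := by
    have h6 := (T.subgroupOf N.ker).card_mul_index
    rw [Nat.card_congr (subgroupOfEquivOfLe hTN).toEquiv] at h6
    exact h6.symm
  rw [← N.ker.card_mul_index, h5]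
  calc Nat.card T * T.relIndex N.ker * N.ker.index ≤ C1 * C1 * C2 :=
        Nat.mul_le_mul (Nat.mul_le_mul (hTc.trans hS) hS) h2
    _ = C1 ^ 2 * C2 := by rw [pow_two]

end Pool.Agent.W5h33.TW
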