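import Pool.Agent.W5h33.TW.Cyc

/-!
# `p = 2`: the decomposition field
-/

set_option autoImplicit false

namespace Pool.Agent.W5h33.TW

open IntermediateField Module Pool.Agent.Q60.MU Pool.Agent.W5h77.MB Pool.Agent.W5h33.DF
open scoped commutatorElement ComplexConjugate Pointwise

theorem not_degLeW_zero {p : ℕ} {c : Gal(Qb/ℚ)} (hcc : c * c = 1) (E : IntermediateField ℚ Qb)
    [FiniteDimensional ℚ E] : ¬ DegLeW p c E 0 := by
  rw [← rankLeW_iff hcc]
  intro h
  have h1 := h E.fixingSubgroup le_rfl E.fixingSubgroup_isOpen (by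
    rw [Subgroup.relIndex_self]
    exact one_ne_zero) (by
    rintro x ((⟨a, ha, rfl⟩ | ⟨a, ha, b, hb, rfl⟩) | ⟨hx, w, hw⟩)
    · exact pow_mem ha p
    · rw [commutatorElement_def]
      exact mul_mem (mul_mem (mul_mem ha hb) (inv_mem ha)) (inv_mem hb)
    · exact hx)
  rw [Subgroup.relIndex_self] at h1
  exact absurd h1 (by norm_num)

section
variable {p : ℕ} [hp : Fact p.Prime] {B K Z : IntermediateField ℚ Qb} [FiniteDimensional ℚ K]
  [hKg : IsGalois ℚ K]

theorem boundW {c : Gal(Qb/ℚ)} (hcc : c * c = 1) (hB : B ≤ abPart K)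
    (hpK : ∃ n, finrank ℚ K = n * finrank ℚ B ∧ ¬ p ∣ n) {A : ValuationSubring Qb}
    (hA : (p : Qb) ∈ A.nonunits) (hZ : IsDecompositionField A B K Z) {m m' : ℕ}
    {R R' : IntermediateField ℚ Qb} (hR : IsLayer p m R) (hR' : IsLayer p m' R') (hRR : R ≤ R')
    (hcR : c ∈ R'.fixingSubgroup)
    (hcyc : ∃ σ : Gal(Qb/ℚ), ∀ τ, ∃ i : ℤ, τ * (σ ^ i)⁻¹ ∈ R'.fixingSubgroup)
    {C E T : ℕ} (hC : DegLeW p c (K ⊔ R) C) (hE : ¬ DegLeW p c (abPart K ⊔ R) E)
    (hCE : C < p ^ (2 * (finrank ℚ ↥(K ⊔ R) / finrank ℚ K)) * (E + 1))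
    (hT : (∃ CF CZ, DegLeW p c (abPart K ⊔ R') CF ∧ DegLeW p c (Z ⊔ R') CZ ∧
        T = CF * CZ ^ finrank ℚ Z) ∨ (Z ≤ abPart K ∧ DegLeW p c (abPart K ⊔ R') T)) :
    DegLeW p c (K ⊔ R') (C / (E + 1) * T) := by
  have hfR := layer_fd hp.out hR
  have hfR' := layer_fd hp.out hR'
  have hZK : Z ≤ K := fun x hx => ((hZ x).1 hx).1
  have hfZ : FiniteDimensional ℚ Z := fd_of_le hZK
  have hfA : FiniteDimensional ℚ (abPart K) := fd_of_le (abPart_le K)
  have hfB : FiniteDimensional ℚ B := fd_of_le (hB.trans (abPart_le K))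
  have hKn : K.fixingSubgroup.Normal := (InfiniteGalois.normal_iff_isGalois K).2 hKg
  have hfab := fix_abPart K
  have hcA : commutator Gal(Qb/ℚ) ≤ (abPart K).fixingSubgroup := by
    rw [hfab]
    exact le_sup_right
  have hFn : (abPart K).fixingSubgroup.Normal := normal_of_comm hcA
  have hFB : (abPart K).fixingSubgroup ≤ B.fixingSubgroup := fixingSubgroup_le hB
  have hBn : B.fixingSubgroup.Normal := normal_of_comm (hcA.trans hFB)
  have hKF : K.fixingSubgroup ≤ (abPart K).fixingSubgroup := fixingSubgroup_le (abPart_le K)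
  have hRn := layer_normal hp.out hR
  have hR'n := layer_normal hp.out hR'
  have hst : MulAction.stabilizer Gal(Qb/ℚ) (Sum.inl A : ValuationSubring Qb ⊕ Gal(Qb/ℚ)) =
      MulAction.stabilizer Gal(Qb/ℚ) A := by
    ext g
    rw [MulAction.mem_stabilizer_iff, MulAction.mem_stabilizer_iff, Sum.smul_inl]
    exact Sum.inl_injective.eq_iff
  have hZfix : Z.fixingSubgroup =
      K.fixingSubgroup ⊔ MulAction.stabilizer Gal(Qb/ℚ) A ⊓ B.fixingSubgroup := by
    apply fix_of_mem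
    intro x
    rw [hZ x]
    exact and_congr_right fun _ => ⟨fun h b hb => h b hb.2 hb.1, fun h b hb hb2 => h b ⟨hb2, hb⟩⟩
  have hidx : ∀ (m : ℕ) (R : IntermediateField ℚ Qb), IsLayer p m R →
      R.fixingSubgroup.index = p ^ m := fun m R hR => by
    rw [← hR.1, finrank_eq_fixingSubgroup_index Qb R]
  have hcov : ∀ w : ValuationSubring Qb ⊕ Gal(Qb/ℚ), inf c w ≤ R'.fixingSubgroup ∨
      ∃ g : Gal(Qb/ℚ), w = g • (Sum.inl A : ValuationSubring Qb ⊕ Gal(Qb/ℚ)) := by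
    rintro (B | g)
    · by_cases hB : (p : Qb) ∈ B.nonunits
      · right
        obtain ⟨g, -, hg⟩ := conj_of_one hp.out ⊥ (onePrime_bot hp.out) hB hA
        exact ⟨g, congrArg Sum.inl hg⟩
      · exact Or.inl (inertia_le_layer hp.out hR' hB)
    · left
      show Subgroup.zpowers (g * c * g⁻¹) ≤ R'.fixingSubgroup
      rw [Subgroup.zpowers_le]
      exact hR'n.conj_mem c hcR g
  have hKidx : finrank ℚ K = K.fixingSubgroup.index := finrank_eq_fixingSubgroup_index Qb K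
  have hBidx : finrank ℚ B = B.fixingSubgroup.index := finrank_eq_fixingSubgroup_index Qb B
  have hZidx : finrank ℚ Z = Z.fixingSubgroup.index := finrank_eq_fixingSubgroup_index Qb Z
  have hKRidx : finrank ℚ ↥(K ⊔ R) = (K ⊔ R).fixingSubgroup.index :=
    finrank_eq_fixingSubgroup_index Qb (K ⊔ R)
  have hKp : ¬ p ∣ K.fixingSubgroup.relIndex B.fixingSubgroup := by
    obtain ⟨n, hn, hpn⟩ := hpK
    have h3 := Subgroup.relIndex_mul_index (hKF.trans hFB)
    rw [← hKidx, ← hBidx, hn] at h3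
    rwa [Nat.eq_of_mul_eq_mul_right finrank_pos h3]
  have hq : finrank ℚ ↥(K ⊔ R) / finrank ℚ K = R.fixingSubgroup.relIndex K.fixingSubgroup := by
    have h3 := Subgroup.relIndex_mul_index
      (inf_le_left : K.fixingSubgroup ⊓ R.fixingSubgroup ≤ K.fixingSubgroup)
    rw [Subgroup.inf_relIndex_left] at h3
    rw [hKRidx, hKidx, fixingSubgroup_sup, ← h3]
    exact Nat.mul_div_cancel _ (Nat.pos_of_ne_zero (index_ne_zero' K))
  rw [hq] at hCE
  rw [← rankLeW_iff hcc, fixingSubgroup_sup] at hC ⊢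
  rw [← rankLeW_iff hcc, fixingSubgroup_sup] at hE
  refine main (inf_conj c) hKn hFn hBn hRn hR'n hKF hFB (fixingSubgroup_le hRR)
    (index_ne_zero' K) hKp (hidx m R hR) (hidx m' R' hR') hcyc (Sum.inl A) hcov
    (Or.inr ⟨rfl, hfab.le⟩) hC hE hCE ?_
  rw [hst, ← hZfix, ← hZidx]
  rcases hT with ⟨CF, CZ, h1, h2, h3⟩ | ⟨h1, h2⟩
  · left
    rw [← rankLeW_iff hcc, fixingSubgroup_sup] at h1 h2
    exact ⟨CF, CZ, h1, h2, h3⟩
  · right
    rw [← rankLeW_iff hcc, fixingSubgroup_sup] at h2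
    exact ⟨fixingSubgroup_le h1, h2⟩

end

section
variable {p : ℕ} [hp : Fact p.Prime]

/-- From a layer to the base. -/
theorem degLeW_base {c : Gal(Qb/ℚ)} (hcc : c * c = 1) {F : IntermediateField ℚ Qb}
    [FiniteDimensional ℚ F] {m : ℕ}
    {R : IntermediateField ℚ Qb} (hR : IsLayer p m R) {C : ℕ} (h : DegLeW p c (F ⊔ R) C) :
    ∃ C₀, DegLeW p c F C₀ := by
  have hfR := layer_fd hp.out hR
  have hRn := layer_normal hp.out hR
  rw [← rankLeW_iff hcc, fixingSubgroup_sup] at h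
  have h3 : (F.fixingSubgroup ⊓ R.fixingSubgroup).relIndex F.fixingSubgroup ≠ 0 := by
    rw [Subgroup.inf_relIndex_left]
    intro h
    have h2 := Subgroup.relIndex_dvd_index_of_normal R.fixingSubgroup F.fixingSubgroup
    rw [h] at h2
    exact index_ne_zero' R (Nat.eq_zero_of_zero_dvd h2)
  refine ⟨_, (rankLeW_iff hcc F _).1 (RankLe.of_le inf_le_left (by
    rw [Subgroup.coe_inf]
    exact F.fixingSubgroup_isOpen.inter R.fixingSubgroup_isOpen) h3 h)⟩

end

section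
variable {B K Z : IntermediateField ℚ Qb} [FiniteDimensional ℚ K] [hKg : IsGalois ℚ K]

/-- Odd class number of the real subfield. -/
theorem bound_plusW {ι : Qb →+* ℂ} {c : Gal(Qb/ℚ)} (hc : ∀ x, ι (c x) = conj (ι x))
    (hB : B ≤ abPart K)
    (hpK : ∃ n, finrank ℚ K = n * finrank ℚ B ∧ ¬ 2 ∣ n) {A : ValuationSubring Qb}
    (hA : ((2 : ℕ) : Qb) ∈ A.nonunits) (hZ : IsDecompositionField A B K Z)
    (k : IntermediateField ℚ Qb) (hk : finrank ℚ k = 2) (hki : ¬ k ≤ realSub ι) (hkK : k ≤ K)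
    (hab : ∀ σ ∈ k.fixingSubgroup, ∀ τ ∈ k.fixingSubgroup, ∀ x ∈ K, σ (τ x) = τ (σ x))
    (h1 : DegLeW 2 c (K ⊓ realSub ι) 1) {m : ℕ} {R : IntermediateField ℚ Qb} (hR : IsLayer 2 m R)
    (hRr : R ≤ realSub ι) {CF T : ℕ} (hCF : DegLeW 2 c (abPart K ⊔ R) CF)
    (hT : (∃ CF CZ, DegLeW 2 c (abPart K ⊔ R) CF ∧ DegLeW 2 c (Z ⊔ R) CZ ∧
        T = CF * CZ ^ finrank ℚ Z) ∨ (Z ≤ abPart K ∧ DegLeW 2 c (abPart K ⊔ R) T)) :
    DegLeW 2 c (K ⊔ R) T := by
  classical
  have hp : Fact (Nat.Prime 2) := ⟨Nat.prime_two⟩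
  have hcc := conj_sq hc
  have hcR : c ∈ R.fixingSubgroup := by
    rw [IntermediateField.mem_fixingSubgroup_iff]
    intro x hx
    apply ι.injective
    rw [hc]
    exact mem_realSub.1 (hRr hx)
  have hfA : FiniteDimensional ℚ (abPart K) := fd_of_le (abPart_le K)
  have hfB : FiniteDimensional ℚ B := fd_of_le (hB.trans (abPart_le K))
  have hbot : IsGalois ℚ (⊥ : IntermediateField ℚ Qb) := isGalois_bot
  have hex := degLeW_base hcc hR hCF
  set C₁ := Nat.find hex with hC₁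
  have h2 : DegLeW 2 c (abPart K) C₁ := Nat.find_spec hex
  have h3 : C₁ ≠ 0 := fun h => not_degLeW_zero (p := 2) hcc (abPart K) (h ▸ h2)
  obtain ⟨E, hE⟩ := Nat.exists_eq_succ_of_ne_zero h3
  have h4 : ¬ DegLeW 2 c (abPart K ⊔ ⊥) E := by
    rw [sup_bot_eq]
    exact Nat.find_min hex (by rw [← hC₁, hE]; exact Nat.lt_succ_self E)
  have hn : ∃ n, finrank ℚ K = n * finrank ℚ (abPart K) ∧ ¬ 2 ∣ n := by
    obtain ⟨n, hn, hpn⟩ := hpK
    have hKidx : finrank ℚ K = K.fixingSubgroup.index := finrank_eq_fixingSubgroup_index Qb K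
    have hBidx : finrank ℚ B = B.fixingSubgroup.index := finrank_eq_fixingSubgroup_index Qb B
    have hFidx : finrank ℚ (abPart K) = (abPart K).fixingSubgroup.index :=
      finrank_eq_fixingSubgroup_index Qb (abPart K)
    have h5 := Subgroup.relIndex_mul_index (fixingSubgroup_le (abPart_le K))
    have h6 := Subgroup.relIndex_mul_index (fixingSubgroup_le hB)
    refine ⟨_, by rw [hKidx, hFidx]; exact h5.symm, fun hdvd => hpn ?_⟩
    have h7 : n = K.fixingSubgroup.relIndex (abPart K).fixingSubgroup *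
        (abPart K).fixingSubgroup.relIndex B.fixingSubgroup := by
      apply Nat.eq_of_mul_eq_mul_right (finrank_pos (R := ℚ) (M := B))
      rw [← hn, hKidx, hBidx, mul_assoc, h6, h5]
    rw [h7]
    exact hdvd.mul_right _
  obtain ⟨n, hn, hpn⟩ := hn
  have h5 : DegLeW 2 c (K ⊔ ⊥) C₁ := by
    have h6 := thmT ι hc hcc k K ⊥ bot_le hk hki hkK hab hn hpn (C1 := 1) (C2 := C₁)
      (by rw [sup_bot_eq]; exact h1) (by rw [sup_bot_eq]; exact h2)
    rwa [one_pow, one_mul] at h6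
  have h6 := boundW hcc hB hpK hA hZ layer_bot hR bot_le hcR (layer_cyclic2 hc hR hRr) h5 h4 (by
    rw [sup_bot_eq, Nat.div_self finrank_pos, hE]
    exact lt_mul_of_one_lt_left (Nat.succ_pos E) (Nat.one_lt_pow (by norm_num) hp.out.one_lt)) hT
  rwa [hE, Nat.succ_eq_add_one, Nat.div_self (Nat.succ_pos E), one_mul] at h6

end

end Pool.Agent.W5h33.TW
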