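import Pool.Agent.W5h33.TW.Mu
import Pool.Agent.W5h33.DF.Field

/-!
# The layers of the cyclotomic `ℤ_2`-extension are cyclic
-/

set_option autoImplicit false

namespace Pool.Agent.W5h33.TW

open IntermediateField Module Pool.Agent.Q60.MU Pool.Agent.W5h77.MB
open scoped ComplexConjugate Pointwise

/-- The unit `5`. -/
def five (n : ℕ) : (ZMod (2 ^ (n + 3)))ˣ :=
  ZMod.unitOfCoprime 5 (Nat.Coprime.pow_right (n + 3) (by norm_num))

theorem five_coe (n : ℕ) : (five n : ZMod (2 ^ (n + 3))) = 5 := by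
  rw [five, ZMod.coe_unitOfCoprime]
  norm_num

theorem units_two (n : ℕ) (u : (ZMod (2 ^ (n + 3)))ˣ) :
    u ∈ Subgroup.zpowers (five n) ∨ u * (-1) ∈ Subgroup.zpowers (five n) := by
  have ho : orderOf (five n) = 2 ^ (n + 1) := by
    rw [← orderOf_units, five_coe, ZMod.orderOf_five]
  have hcard : Nat.card (ZMod (2 ^ (n + 3)))ˣ = 2 ^ (n + 2) := by
    rw [Nat.card_eq_fintype_card, ZMod.card_units_eq_totient,
      Nat.totient_prime_pow_succ Nat.prime_two (n + 2)]
    norm_num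
  have hidx : (Subgroup.zpowers (five n)).index = 2 := by
    have h1 := (Subgroup.zpowers (five n)).card_mul_index
    rw [Nat.card_zpowers, ho, hcard] at h1
    have h2 : 2 ^ (n + 2) = 2 ^ (n + 1) * 2 := pow_succ 2 (n + 1)
    rw [h2] at h1
    exact Nat.eq_of_mul_eq_mul_left (by positivity) h1
  have hneg : (-1 : (ZMod (2 ^ (n + 3)))ˣ) ∉ Subgroup.zpowers (five n) := by
    have hd : 4 ∣ 2 ^ (n + 3) := ⟨2 ^ (n + 1), by ring⟩
    let f : (ZMod (2 ^ (n + 3)))ˣ →* (ZMod 4)ˣ := Units.map (ZMod.castHom hd (ZMod 4)).toMonoidHom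
    have h5 : f (five n) = 1 := by
      ext
      show ZMod.castHom hd (ZMod 4) (five n : ZMod (2 ^ (n + 3))) = 1
      rw [five_coe, map_ofNat]
      decide
    rintro ⟨i, hi⟩
    have h1 : f (-1) = 1 := by
      have h2 : f (five n ^ i) = 1 := by rw [map_zpow, h5, one_zpow]
      have h3 : five n ^ i = -1 := hi
      rwa [h3] at h2
    have h2 : ZMod.castHom hd (ZMod 4) ((-1 : (ZMod (2 ^ (n + 3)))ˣ) : ZMod (2 ^ (n + 3))) = 1 :=
      congrArg Units.val h1
    rw [Units.val_neg, Units.val_one, map_neg, map_one] at h2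
    revert h2
    decide
  by_cases hu : u ∈ Subgroup.zpowers (five n)
  · exact Or.inl hu
  · right
    rw [Subgroup.mul_mem_iff_of_index_two hidx]
    exact ⟨fun h => absurd h hu, fun h => absurd h hneg⟩

/-- The layers are cyclic over `ℚ`. -/
theorem layer_cyclic2 {ι : Qb →+* ℂ} {c : Gal(Qb/ℚ)} (hc : ∀ x, ι (c x) = conj (ι x)) {m : ℕ}
    {R : IntermediateField ℚ Qb} (hR : IsLayer 2 m R) (hRr : R ≤ realSub ι) :
    ∃ σ : Gal(Qb/ℚ), ∀ τ, ∃ i : ℤ, τ * (σ ^ i)⁻¹ ∈ R.fixingSubgroup := by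
  have hRn := layer_normal Nat.prime_two hR
  obtain ⟨-, N, hN⟩ := hR
  have hcR : c ∈ R.fixingSubgroup := by
    rw [IntermediateField.mem_fixingSubgroup_iff]
    intro x hx
    apply ι.injective
    rw [hc]
    exact mem_realSub.1 (hRr hx)
  have hpn : NeZero (2 ^ (N + 3)) := ⟨(pow_pos two_pos (N + 3)).ne'⟩
  have hpQ : NeZero ((2 ^ (N + 3) : ℕ) : Qb) := ⟨by exact_mod_cast (pow_pos (two_pos (α := ℕ)) (N + 3)).ne'⟩
  have hne : HasEnoughRootsOfUnity Qb (2 ^ (N + 3)) := inferInstance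
  have hn : Nat.card { x // x ∈ rootsOfUnity (2 ^ (N + 3)) Qb } = 2 ^ (N + 3) :=
    HasEnoughRootsOfUnity.natCard_rootsOfUnity Qb (2 ^ (N + 3))
  let f : Gal(Qb/ℚ) →* (Qb ≃+* Qb) :=
    { toFun := fun g => g.toRingEquiv
      map_one' := rfl
      map_mul' := fun _ _ => rfl }
  let χ : Gal(Qb/ℚ) →* (ZMod (2 ^ (N + 3)))ˣ := (modularCyclotomicCharacter Qb hn).comp f
  have hfact : Fact (1 < 2 ^ (N + 3)) := ⟨Nat.one_lt_pow (by omega) (by norm_num)⟩
  -- the kernel of the character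
  have hker : ∀ g : Gal(Qb/ℚ), χ g = 1 → g ∈ R.fixingSubgroup := by
    intro g h1
    have h2 : adjoin ℚ {z : Qb | z ^ 2 ^ N = 1} ≤ fixedField (Subgroup.zpowers g) := by
      rw [adjoin_le_iff]
      intro z hz
      have hz1 : z ^ 2 ^ N = 1 := hz
      have hz' : z ^ 2 ^ (N + 3) = 1 := by
        rw [pow_add, pow_mul, hz1, one_pow]
      have hz0 : z ≠ 0 := by
        rintro rfl
        rw [zero_pow (pow_pos two_pos (N + 3)).ne'] at hz'
        exact zero_ne_one hz'
      have h3 : Subgroup.zpowers g ≤ MulAction.stabilizer Gal(Qb/ℚ) z := by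
        rw [Subgroup.zpowers_le]
        have h4 : (Units.mk0 z hz0) ∈ rootsOfUnity (2 ^ (N + 3)) Qb := by
          rw [mem_rootsOfUnity]
          ext
          exact hz'
        have h5 := modularCyclotomicCharacter.spec Qb hn (f g) h4
        have h6 : modularCyclotomicCharacter Qb hn (f g) = 1 := h1
        rw [h6] at h5
        show g z = z
        have h7 : (f g) z = z := by
          simpa [ZMod.val_one] using h5
        exact h7
      exact (mem_fixedField_iff _ _).2 fun f hf => h3 hf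
    rw [IntermediateField.mem_fixingSubgroup_iff]
    intro x hx
    exact (mem_fixedField_iff _ _).1 (h2 (hN hx)) g (Subgroup.mem_zpowers g)
  -- the character of the complex conjugation
  have hχc : χ c = -1 := by
    have h1 : (-1 : ZMod (2 ^ (N + 3))) = modularCyclotomicCharacter Qb hn (f c) := by
      apply modularCyclotomicCharacter.unique
      intro t ht
      have ht1 : (t : Qb) ^ 2 ^ (N + 3) = 1 := by
        have h2 := (mem_rootsOfUnity _ _).1 ht
        rw [← Units.val_pow_eq_pow_val, h2, Units.val_one]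
      have hv : (-1 : ZMod (2 ^ (N + 3))).val + 1 = 2 ^ (N + 3) := by
        rw [ZMod.neg_val, if_neg one_ne_zero, ZMod.val_one]
        exact Nat.sub_add_cancel (Nat.one_le_two_pow)
      have h2 : (t : Qb) ^ (-1 : ZMod (2 ^ (N + 3))).val * t = 1 := by
        rw [← pow_succ, hv, ht1]
      have h3 : c (t : Qb) * t = 1 := by
        apply ι.injective
        rw [map_mul, hc, map_one]
        have h4 : ‖ι (t : Qb)‖ = 1 := by
          refine Complex.norm_eq_one_of_pow_eq_one (n := 2 ^ (N + 3)) ?_ (pow_pos two_pos (N + 3)).ne'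
          rw [← map_pow, ht1, map_one]
        rw [mul_comm, Complex.mul_conj, Complex.normSq_eq_norm_sq, h4]
        norm_num
      have h5 : c (t : Qb) = (t : Qb) ^ (-1 : ZMod (2 ^ (N + 3))).val :=
        mul_right_cancel₀ t.ne_zero (h3.trans h2.symm)
      exact h5
    ext
    rw [Units.val_neg, Units.val_one]
    exact h1.symm
  let G₅ : Subgroup Gal(Qb/ℚ) := (Subgroup.zpowers (five N)).comap χ
  have hT : IsCyclic (G₅.map χ) := by
    have h1 : G₅.map χ ≤ Subgroup.zpowers (five N) := Subgroup.map_comap_le _ _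
    exact Subgroup.isCyclic_of_le h1
  obtain ⟨⟨_, σ, hσ5, rfl⟩, hσ⟩ := hT.exists_generator
  have key : ∀ τ ∈ G₅, ∃ i : ℤ, τ * (σ ^ i)⁻¹ ∈ R.fixingSubgroup := by
    intro τ hτ
    obtain ⟨i, hi⟩ := hσ ⟨χ τ, τ, hτ, rfl⟩
    refine ⟨i, hker _ ?_⟩
    have h2 : (χ σ) ^ i = χ τ := congrArg Subtype.val hi
    rw [map_mul, map_inv, map_zpow, h2, mul_inv_cancel]
  refine ⟨σ, fun τ => ?_⟩
  rcases units_two N (χ τ) with h | h
  · exact key τ h
  · have h1 : τ * c ∈ G₅ := by
      show χ (τ * c) ∈ Subgroup.zpowers (five N)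
      rw [map_mul, hχc]
      exact h
    obtain ⟨i, hi⟩ := key _ h1
    refine ⟨i, ?_⟩
    have h2 : τ * (σ ^ i)⁻¹ = (τ * c * (σ ^ i)⁻¹) * (σ ^ i * c⁻¹ * (σ ^ i)⁻¹) := by group
    rw [h2]
    exact mul_mem hi (hRn.conj_mem _ (inv_mem hcR) _)

end Pool.Agent.W5h33.TW
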