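import Pool.Agent.Q60.MU.Fields

/-!
# Elementary abelian extensions which are unramified at all primes
-/

set_option autoImplicit false

namespace Pool.Agent.W5h33.TW

open IntermediateField Module Pool.Agent.Q60.MU

/-- `M / E` is Galois with abelian Galois group of exponent `p`. -/
def AbExp (p : ℕ) (E M : IntermediateField ℚ Qb) : Prop :=
  (∀ σ ∈ E.fixingSubgroup, ∀ x ∈ M, σ x ∈ M) ∧
  (∀ σ ∈ E.fixingSubgroup, ∀ τ ∈ E.fixingSubgroup, ∀ x ∈ M, σ (τ x) = τ (σ x)) ∧
  ∀ σ ∈ E.fixingSubgroup, ∀ x ∈ M, (σ ^ p) x = x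

/-- `M / E` is unramified at all finite primes. -/
def UnrFin (E M : IntermediateField ℚ Qb) : Prop :=
  ∀ A, ∀ σ ∈ inertia A, σ ∈ E.fixingSubgroup → ∀ x ∈ M, σ x = x

/-- `M / E` is unramified at all infinite primes: every conjugate of the complex conjugation `c` which
fixes `E` fixes `M`. -/
def UnrInf (c : Gal(Qb/ℚ)) (E M : IntermediateField ℚ Qb) : Prop :=
  ∀ g : Gal(Qb/ℚ), g * c * g⁻¹ ∈ E.fixingSubgroup → ∀ x ∈ M, (g * c * g⁻¹) x = x

/-- Every finite extension `M` of `E` which is Galois over `E` with abelian Galois group of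
exponent `p`, unramified at all finite and infinite primes, has degree at most `C` over `E`. -/
def DegLeW (p : ℕ) (c : Gal(Qb/ℚ)) (E : IntermediateField ℚ Qb) (C : ℕ) : Prop :=
  ∀ M : IntermediateField ℚ Qb, E ≤ M → FiniteDimensional ℚ M → AbExp p E M → UnrFin E M →
    UnrInf c E M → finrank ℚ M ≤ C * finrank ℚ E

end Pool.Agent.W5h33.TW
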