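import Pool.Agent.W5h33.TW.Grp
import Pool.Agent.W5h33.TW.Defs

/-!
# `p = 2`: the bound for number fields
-/

set_option autoImplicit false

namespace Pool.Agent.W5h33.TW

open IntermediateField Module Pool.Agent.Q60.MU Pool.Agent.W5h77.MB
open Pool.Agent.X310.Mu (comms comms_normal)
open scoped commutatorElement ComplexConjugate Pointwise

theorem DegLeW.of {p : ℕ} {c : Gal(Qb/ℚ)} {E : IntermediateField ℚ Qb} {C : ℕ} (h : DegLe p E C) :
    DegLeW p c E C := fun M h1 h2 h3 h4 _ => h M h1 h2 h3.1 h3.2.1 h3.2.2 h4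

/-- The inertia groups at the finite and infinite primes. -/
noncomputable def inf (c : Gal(Qb/ℚ)) : ValuationSubring Qb ⊕ Gal(Qb/ℚ) → Subgroup Gal(Qb/ℚ) :=
  Sum.elim inertia fun g => Subgroup.zpowers (g * c * g⁻¹)

theorem inf_conj (c : Gal(Qb/ℚ)) (g : Gal(Qb/ℚ)) (w : ValuationSubring Qb ⊕ Gal(Qb/ℚ)) :
    ∀ x ∈ inf c w, g * x * g⁻¹ ∈ inf c (g • w) := by
  rcases w with A | h
  · exact inertia_conj g A
  · rintro _ ⟨n, rfl⟩
    refine ⟨n, ?_⟩
    show (g * h * c * (g * h)⁻¹) ^ n = g * (h * c * h⁻¹) ^ n * g⁻¹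
    have h1 : g * h * c * (g * h)⁻¹ = g * (h * c * h⁻¹) * g⁻¹ := by group
    rw [h1, conj_zpow]

theorem rankLeW_iff {p : ℕ} {c : Gal(Qb/ℚ)} (hcc : c * c = 1) (E : IntermediateField ℚ Qb)
    [FiniteDimensional ℚ E] (C : ℕ) :
    RankLe p (inf c) E.fixingSubgroup C ↔ DegLeW p c E C := by
  have hK0 := index_ne_zero' E
  constructor
  · rintro h M hEM hM ⟨h1, h2, h3⟩ h4 h4'
    have hWK : M.fixingSubgroup ≤ E.fixingSubgroup := fixingSubgroup_le hEM
    have hmul := Subgroup.relIndex_mul_index hWK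
    have hW0 := index_ne_zero' M
    have h5 := h M.fixingSubgroup hWK M.fixingSubgroup_isOpen (by
      intro h0
      rw [h0, zero_mul] at hmul
      exact hW0 hmul.symm) (by
      rintro x ((⟨a, ha, rfl⟩ | ⟨a, ha, b, hb, rfl⟩) | ⟨hx, w | g, hw⟩)
      · exact (mem_fixingSubgroup_iff _ _).2 fun x hx => h3 a ha x hx
      · refine (mem_fixingSubgroup_iff _ _).2 fun x hx => ?_
        have hb' : b⁻¹ x ∈ M := h1 _ (inv_mem hb) x hx
        have ha' : a⁻¹ (b⁻¹ x) ∈ M := h1 _ (inv_mem ha) _ hb'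
        have h6 := h2 a ha b hb _ ha'
        show ⁅a, b⁆ x = x
        have h7 : ⁅a, b⁆ x = a (b (a⁻¹ (b⁻¹ x))) := rfl
        have h8 : a (a⁻¹ (b⁻¹ x)) = b⁻¹ x := by
          rw [← AlgEquiv.mul_apply, mul_inv_cancel, AlgEquiv.one_apply]
        have h9 : b (b⁻¹ x) = x := by
          rw [← AlgEquiv.mul_apply, mul_inv_cancel, AlgEquiv.one_apply]
        rw [h7, h6, h8, h9]
      · exact (mem_fixingSubgroup_iff _ _).2 fun y hy => h4 w x hw hx y hy
      · have hgg : g * c * g⁻¹ * (g * c * g⁻¹) = 1 := by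
          rw [show g * c * g⁻¹ * (g * c * g⁻¹) = g * (c * c) * g⁻¹ by group, hcc, mul_one,
            mul_inv_cancel]
        rcases mem_zpow hgg hw with rfl | rfl
        · exact one_mem _
        · exact (mem_fixingSubgroup_iff _ _).2 fun y hy => h4' g hx y hy)
    rw [finrank_eq_fixingSubgroup_index, finrank_eq_fixingSubgroup_index, ← hmul]
    exact Nat.mul_le_mul_right _ h5
  · intro h W hWK hWo hWf hg
    have hmul := Subgroup.relIndex_mul_index hWK
    have hW0 : W.index ≠ 0 := by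
      rw [← hmul]
      exact mul_ne_zero hWf hK0
    have hfix := fix_fixed hWo
    have hEM : E ≤ fixedField W := (le_iff_le _ _).2 hWK
    have hfd := finite_fixed hWo hW0
    have hmem : ∀ x, x ∈ fixedField W ↔ ∀ w ∈ W, w x = x := fun x => mem_fixedField_iff _ _
    have h5 := h (fixedField W) hEM hfd ⟨(by
      intro σ hσ x hx
      rw [hmem] at hx ⊢
      intro w hw
      have h1 : ⁅σ⁻¹, w⁆ ∈ W := hg (Or.inl (Or.inr ⟨σ⁻¹, inv_mem hσ, w, hWK hw, rfl⟩))
      have h2 : w (σ x) = σ ((⁅σ⁻¹, w⁆ * w) x) := by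
        rw [← AlgEquiv.mul_apply, ← AlgEquiv.mul_apply]
        congr 1
        rw [commutatorElement_def]
        group
      rw [h2, hx _ (W.mul_mem h1 hw)]), (by
      intro σ hσ τ hτ x hx
      rw [hmem] at hx
      have h1 : ⁅σ⁻¹, τ⁻¹⁆ ∈ W := hg (Or.inl (Or.inr ⟨σ⁻¹, inv_mem hσ, τ⁻¹, inv_mem hτ, rfl⟩))
      have h2 : σ (τ x) = τ (σ (⁅σ⁻¹, τ⁻¹⁆ x)) := by
        rw [← AlgEquiv.mul_apply, ← AlgEquiv.mul_apply, ← AlgEquiv.mul_apply]
        congr 1
        rw [commutatorElement_def]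
        group
      rw [h2, hx _ h1]), (by
      intro σ hσ x hx
      rw [hmem] at hx
      exact hx _ (hg (Or.inl (Or.inl ⟨σ, hσ, rfl⟩))))⟩ (by
      intro A σ hσA hσ x hx
      rw [hmem] at hx
      exact hx _ (hg (Or.inr ⟨hσ, Sum.inl A, hσA⟩))) (by
      intro g hg' x hx
      rw [hmem] at hx
      exact hx _ (hg (Or.inr ⟨hg', Sum.inr g, Subgroup.mem_zpowers _⟩)))
    rw [finrank_eq_fixingSubgroup_index, finrank_eq_fixingSubgroup_index, hfix, ← hmul] at h5
    exact Nat.le_of_mul_le_mul_right h5 (Nat.pos_of_ne_zero hK0)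

variable {k K E : IntermediateField ℚ Qb} {ι : Qb →+* ℂ} {c : Gal(Qb/ℚ)}

/-- The complex conjugation inverts the commutators modulo the group of `K`. -/
theorem comms_inv (hcc : c * c = 1) (hKn : K.fixingSubgroup.Normal)
    (hk : finrank ℚ k = 2)
    (hab : ∀ σ ∈ k.fixingSubgroup, ∀ τ ∈ k.fixingSubgroup, ∀ x ∈ K, σ (τ x) = τ (σ x))
    {d : Gal(Qb/ℚ)} (hd : d ∈ comms c) : c * d * c⁻¹ * d ∈ K.fixingSubgroup := by
  have hfd : FiniteDimensional ℚ k := FiniteDimensional.of_finrank_pos (by rw [hk]; norm_num)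
  have h2 : k.fixingSubgroup.index = 2 := by
    rw [← finrank_eq_fixingSubgroup_index, hk]
  have hkn : k.fixingSubgroup.Normal := Subgroup.normal_of_index_eq_two h2
  have hck : comms c ≤ k.fixingSubgroup := by
    unfold comms
    rw [Subgroup.closure_le]
    rintro _ ⟨g, rfl⟩
    show g * c * g⁻¹ * c⁻¹ ∈ k.fixingSubgroup
    rw [Subgroup.mul_mem_iff_of_index_two h2, inv_mem_iff]
    constructor
    · intro h
      have h3 := hkn.conj_mem _ h g⁻¹
      have h4 : g⁻¹ * (g * c * g⁻¹) * g⁻¹⁻¹ = c := by group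
      rwa [h4] at h3
    · exact fun h => hkn.conj_mem c h g
  let q := QuotientGroup.mk' K.fixingSubgroup
  have hq1 : ∀ x, q x = 1 ↔ x ∈ K.fixingSubgroup := fun x => QuotientGroup.eq_one_iff x
  have hcomm : ∀ σ ∈ k.fixingSubgroup, ∀ τ ∈ k.fixingSubgroup, q σ * q τ = q τ * q σ := by
    intro σ hσ τ hτ
    rw [← mul_inv_eq_one, mul_inv_rev, ← map_inv, ← map_inv, ← map_mul, ← map_mul, ← map_mul, hq1,
      IntermediateField.mem_fixingSubgroup_iff]
    intro x hx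
    have hx' : (σ⁻¹ * τ⁻¹) x ∈ K := by
      rw [← InfiniteGalois.fixedField_fixingSubgroup K, mem_fixedField_iff]
      intro f hf
      have h1 := hKn.conj_mem f hf (σ⁻¹ * τ⁻¹)⁻¹
      have h3 : ((σ⁻¹ * τ⁻¹)⁻¹ * f * (σ⁻¹ * τ⁻¹)⁻¹⁻¹) x = x := (mem_fixingSubgroup_iff K _).1 h1 x hx
      have h4 : f ((σ⁻¹ * τ⁻¹) x) = (σ⁻¹ * τ⁻¹) (((σ⁻¹ * τ⁻¹)⁻¹ * f * (σ⁻¹ * τ⁻¹)⁻¹⁻¹) x) := by
        rw [← AlgEquiv.mul_apply, ← AlgEquiv.mul_apply]
        congr 1
        group
      rw [h4, h3]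
    show (σ * τ) ((σ⁻¹ * τ⁻¹) x) = x
    have h5 : (σ * τ) ((σ⁻¹ * τ⁻¹) x) = (τ * σ) ((σ⁻¹ * τ⁻¹) x) := hab σ hσ τ hτ _ hx'
    rw [h5, ← AlgEquiv.mul_apply]
    have h6 : τ * σ * (σ⁻¹ * τ⁻¹) = 1 := by group
    rw [h6]
    rfl
  have key : ∀ d ∈ comms c, q c * q d * (q c)⁻¹ = (q d)⁻¹ := by
    intro d hd
    have hd2 := hd
    unfold comms at hd
    induction hd using Subgroup.closure_induction with
    | mem x hx =>
      obtain ⟨g, rfl⟩ := hx
      rw [← map_mul, ← map_inv, ← map_mul, ← map_inv]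
      congr 1
      have h3 : c⁻¹ = c := inv_eq_of_mul_eq_one_left hcc
      have h4 : c * (g * c * g⁻¹ * c⁻¹) * c⁻¹ = c * g * c * g⁻¹ * (c⁻¹ * c⁻¹) := by group
      have h5 : (g * c * g⁻¹ * c⁻¹)⁻¹ = c * g * c⁻¹ * g⁻¹ := by group
      rw [h4, h5, h3, hcc, mul_one]
    | one => rw [map_one, mul_one, mul_inv_cancel, inv_one]
    | mul x y hx hy ihx ihy =>
      have h3 := ihx hx
      have h4 := ihy hy
      have h5 := hcomm x (hck hx) y (hck hy)
      rw [map_mul, show q c * (q x * q y) * (q c)⁻¹ = (q c * q x * (q c)⁻¹) *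
        (q c * q y * (q c)⁻¹) by group, h3, h4, ← mul_inv_rev, h5]
    | inv x hx ihx =>
      have h3 := ihx hx
      rw [map_inv, show q c * (q x)⁻¹ * (q c)⁻¹ = (q c * q x * (q c)⁻¹)⁻¹ by group, h3]
  have h3 := key d hd
  rw [← hq1, map_mul, map_mul, map_mul, map_inv, h3, inv_mul_cancel]

/-- **The bound for `p = 2`.** -/
theorem thmT (ι : Qb →+* ℂ) {c : Gal(Qb/ℚ)} (hc : ∀ x, ι (c x) = conj (ι x)) (hcc : c * c = 1)
    (k K E : IntermediateField ℚ Qb) [FiniteDimensional ℚ K] [hKg : IsGalois ℚ K]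
    [FiniteDimensional ℚ E] [hEg : IsGalois ℚ E] (hE : E ≤ realSub ι)
    (hk : finrank ℚ k = 2) (hki : ¬ k ≤ realSub ι) (hkK : k ≤ K)
    (hab : ∀ σ ∈ k.fixingSubgroup, ∀ τ ∈ k.fixingSubgroup, ∀ x ∈ K, σ (τ x) = τ (σ x))
    {n : ℕ} (hn : finrank ℚ K = n * finrank ℚ (abPart K)) (hpn : ¬ 2 ∣ n) {C1 C2 : ℕ}
    (h1 : DegLeW 2 c ((K ⊓ realSub ι) ⊔ E) C1) (h2 : DegLeW 2 c (abPart K ⊔ E) C2) :
    DegLeW 2 c (K ⊔ E) (C1 ^ 2 * C2) := by
  have hKn : K.fixingSubgroup.Normal := (InfiniteGalois.normal_iff_isGalois K).2 hKg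
  have hEn : E.fixingSubgroup.Normal := (InfiniteGalois.normal_iff_isGalois E).2 hEg
  have hsub : ∀ M : IntermediateField ℚ Qb, M ≤ K → FiniteDimensional ℚ M := fun M hM =>
    Submodule.finiteDimensional_of_le (S₁ := Subalgebra.toSubmodule M.toSubalgebra)
      (S₂ := Subalgebra.toSubmodule K.toSubalgebra) hM
  have hf1 := hsub (K ⊓ realSub ι) inf_le_left
  have hf2 := hsub (abPart K) (abPart_le K)
  have hkc : c ∉ k.fixingSubgroup := by
    intro h
    apply hki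
    intro x hx
    rw [mem_realSub, ← hc]
    congr 1
    exact (mem_fixingSubgroup_iff k _).1 h x hx
  have hcE : c ∈ E.fixingSubgroup := by
    rw [IntermediateField.mem_fixingSubgroup_iff]
    intro x hx
    apply ι.injective
    rw [hc]
    exact mem_realSub.1 (hE hx)
  have hcommE : comms c ≤ E.fixingSubgroup := by
    unfold comms
    rw [Subgroup.closure_le]
    rintro _ ⟨g, rfl⟩
    exact mul_mem (hEn.conj_mem c hcE g) (inv_mem hcE)
  rw [← rankLeW_iff hcc] at h1 h2 ⊢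
  rw [fixingSubgroup_sup] at h1 h2 ⊢
  rw [fix_real hc] at h1
  have hfab := fix_ab hk hkc hab
  have hidx : finrank ℚ K = K.fixingSubgroup.index := finrank_eq_fixingSubgroup_index Qb K
  have hidx2 : finrank ℚ (abPart K) = (abPart K).fixingSubgroup.index :=
    finrank_eq_fixingSubgroup_index Qb (abPart K)
  have hleab : K.fixingSubgroup ≤ (abPart K).fixingSubgroup := fixingSubgroup_le (abPart_le K)
  have hrel : K.fixingSubgroup.relIndex (abPart K).fixingSubgroup = n := by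
    have h3 := Subgroup.relIndex_mul_index hleab
    rw [← hidx, ← hidx2, hn] at h3
    exact Nat.eq_of_mul_eq_mul_right finrank_pos h3
  have h𝒦n : (K.fixingSubgroup ⊓ E.fixingSubgroup).Normal := Subgroup.normal_inf_normal _ _
  have hcK : c ∉ K.fixingSubgroup ⊓ E.fixingSubgroup := fun h =>
    hkc (fixingSubgroup_le hkK h.1)
  refine bound2 (inf_conj c) (c := c) hcc
    (L₁ := (K.fixingSubgroup ⊔ Subgroup.zpowers c) ⊓ E.fixingSubgroup)
    (L₂ := (abPart K).fixingSubgroup ⊓ E.fixingSubgroup) hcK h𝒦n ?_ ?_ ?_ ?_ ?_ ?_ ?_ h1 h2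
  · exact Subgroup.index_inf_ne_zero (index_ne_zero' K) (index_ne_zero' E)
  · exact inf_le_inf_right _ le_sup_left
  · exact ⟨Subgroup.mem_sup_right (Subgroup.mem_zpowers c), hcE⟩
  · rintro l ⟨hl, hlE⟩
    obtain ⟨a, ha, z, hz, rfl⟩ := mem_sup_nrm hKn hl
    rcases mem_zpow hcc hz with rfl | rfl
    · left
      rw [mul_one] at hlE ⊢
      exact ⟨ha, hlE⟩
    · right
      refine ⟨?_, E.fixingSubgroup.mul_mem hlE (E.fixingSubgroup.inv_mem hcE)⟩
      rw [mul_inv_cancel_right]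
      exact ha
  · exact inf_le_inf_right _ hleab
  · rintro l ⟨hl, hlE⟩
    rw [hfab] at hl
    obtain ⟨a, ha, d, hd, rfl⟩ := mem_sup_nrm hKn hl
    refine ⟨?_, E.fixingSubgroup.mul_mem (hEn.conj_mem _ hlE c) hlE⟩
    have h3 := comms_inv hcc hKn hk hab hd
    have h4 : c * (a * d) * c⁻¹ * (a * d) = (c * a * c⁻¹) * ((c * d * c⁻¹) * a * (c * d * c⁻¹)⁻¹) *
        (c * d * c⁻¹ * d) := by group
    rw [h4]
    exact mul_mem (mul_mem (hKn.conj_mem a ha c) (hKn.conj_mem a ha _)) h3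
  · intro hdvd
    apply hpn
    rw [← hrel]
    refine hdvd.trans ?_
    have h3 : (K.fixingSubgroup ⊓ E.fixingSubgroup).relIndex
        ((abPart K).fixingSubgroup ⊓ E.fixingSubgroup) =
        K.fixingSubgroup.relIndex ((abPart K).fixingSubgroup ⊓ E.fixingSubgroup) := by
      rw [← Subgroup.inf_relIndex_right, ← Subgroup.inf_relIndex_right K.fixingSubgroup]
      congr 1
      ext x
      simp only [Subgroup.mem_inf]
      tauto
    rw [h3]
    have h4 : (K.fixingSubgroup.subgroupOf (abPart K).fixingSubgroup).Normal :=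
      Subgroup.normal_subgroupOf
    have h5 := Subgroup.relIndex_dvd_index_of_normal
      (K.fixingSubgroup.subgroupOf (abPart K).fixingSubgroup)
      (((abPart K).fixingSubgroup ⊓ E.fixingSubgroup).subgroupOf (abPart K).fixingSubgroup)
    rw [Subgroup.relIndex_subgroupOf inf_le_left] at h5
    exact h5

end Pool.Agent.W5h33.TW
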