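import Pool.Agent.W5h33.TW.Alg

/-!
# `p = 2`: the bound for a normal subgroup in terms of an involution
-/

set_option autoImplicit false

namespace Pool.Agent.W5h33.TW

open Subgroup Pool.Agent.Q60.MU Pool.Agent.W5h77.MB
open scoped commutatorElement

variable {𝔾 : Type} [Group 𝔾]

/-- The subgroup `P ∪ P c`. -/
def dbl (P : Subgroup 𝔾) (c : 𝔾) (hc : c * c = 1) (hP : ∀ x ∈ P, c * x * c⁻¹ ∈ P) : Subgroup 𝔾 where
  carrier := {l | l ∈ P ∨ l * c⁻¹ ∈ P}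
  one_mem' := Or.inl P.one_mem
  mul_mem' := by
    rintro a b (ha | ha) (hb | hb)
    · exact Or.inl (P.mul_mem ha hb)
    · right
      rw [mul_assoc]
      exact P.mul_mem ha hb
    · right
      have h1 : a * b * c⁻¹ = (a * c⁻¹) * (c * b * c⁻¹) := by group
      rw [h1]
      exact P.mul_mem ha (hP b hb)
    · left
      have h1 : a * b = (a * c⁻¹) * (c * (b * c⁻¹) * c⁻¹) * (c * c) := by group
      rw [h1, hc, mul_one]
      exact P.mul_mem ha (hP _ hb)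
  inv_mem' := by
    rintro a (ha | ha)
    · exact Or.inl (P.inv_mem ha)
    · right
      have h2 : c⁻¹ = c := inv_eq_of_mul_eq_one_left hc
      have h1 : a⁻¹ * c⁻¹ = c * (a * c⁻¹)⁻¹ * c⁻¹ * (c⁻¹ * c⁻¹) := by
        have h3 : c * (a * c⁻¹)⁻¹ * c⁻¹ * (c⁻¹ * c⁻¹) = (c * c) * a⁻¹ * c⁻¹ * (c⁻¹ * c⁻¹) := by group
        rw [h3, hc, one_mul, h2, hc, mul_one]
      rw [h1, h2, hc, mul_one]
      have h4 := hP _ (P.inv_mem ha)
      rwa [h2] at h4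

theorem mem_dbl {P : Subgroup 𝔾} {c : 𝔾} {hc : c * c = 1} {hP : ∀ x ∈ P, c * x * c⁻¹ ∈ P} {l : 𝔾} :
    l ∈ dbl P c hc hP ↔ l ∈ P ∨ l * c⁻¹ ∈ P := Iff.rfl

section
variable (𝒦 Q : Subgroup 𝔾) [Q.Normal] [h𝒦 : 𝒦.Normal]

theorem step2 [TopologicalSpace 𝔾] [ContinuousMul 𝔾] {Ω : Type}
    {I : Ω → Subgroup 𝔾} {L : Subgroup 𝔾} {c : 𝔾} (hc : c * c = 1) (hcK : c ∉ 𝒦)
    (h𝒦f : 𝒦.index ≠ 0)
    (hKL : 𝒦 ≤ L) (hcL : c ∈ L) (hL : ∀ l ∈ L, l ∈ 𝒦 ∨ l * c⁻¹ ∈ 𝒦)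
    (hQ : Q ≤ 𝒦) (hQo : IsOpen (Q : Set 𝔾)) (hQf : Q.relIndex 𝒦 ≠ 0)
    (hg : gens 2 I 𝒦 ⊆ Q) {S : Subgroup (VV 𝒦 Q)}
    (hS : ∀ v, act 𝒦 Q c v * v⁻¹ ∈ S) (hS2 : ∀ v, v * act 𝒦 Q c v = 1 → v ∈ S)
    {C : ℕ} (hC : RankLe 2 I L C) : S.index ≤ C := by
  classical
  have hfin : Finite (VV 𝒦 Q) := by
    apply Nat.finite_of_card_ne_zero
    rw [card_VV]
    exact hQf
  set P := pre 𝒦 Q S with hPdef
  have hPK : P ≤ 𝒦 := pre_le 𝒦 Q S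
  have hQP : Q ≤ P := le_pre 𝒦 Q hQ S
  have hmem : ∀ x (hx : x ∈ 𝒦), x ∈ P ↔ th 𝒦 Q ⟨x, hx⟩ ∈ S := fun x hx => mem_pre 𝒦 Q S ⟨x, hx⟩
  -- the conjugation by `c`
  have hcon : ∀ x (hx : x ∈ 𝒦), c * x * c⁻¹ * x⁻¹ ∈ P := by
    intro x hx
    have h1 : c * x * c⁻¹ ∈ 𝒦 := h𝒦.conj_mem x hx c
    rw [hmem _ (𝒦.mul_mem h1 (𝒦.inv_mem hx))]
    have h2 := hS (th 𝒦 Q ⟨x, hx⟩)
    rw [act_th, ← map_inv, ← map_mul] at h2
    exact h2
  have hsw : ∀ x ∈ 𝒦, ∀ y ∈ 𝒦, ⁅x, y⁆ ∈ P := fun x hx y hy =>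
    hQP (hg (Or.inl (Or.inr ⟨x, hx, y, hy, rfl⟩)))
  have hnorm : ∀ x ∈ 𝒦, ∀ s ∈ P, x * s * x⁻¹ ∈ P := by
    intro x hx s hs
    have h1 : x * s * x⁻¹ = ⁅x, s⁆ * s := by
      rw [commutatorElement_def]
      group
    rw [h1]
    exact P.mul_mem (hsw x hx s (hPK hs)) hs
  have hPc : ∀ x ∈ P, c * x * c⁻¹ ∈ P := by
    intro x hx
    have h1 : c * x * c⁻¹ = (c * x * c⁻¹ * x⁻¹) * x := by group
    rw [h1]
    exact P.mul_mem (hcon x (hPK hx)) hx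
  set W := dbl P c hc hPc with hW
  have hPW : P ≤ W := fun x hx => Or.inl hx
  have hcW : c ∈ W := Or.inr (by rw [mul_inv_cancel]; exact P.one_mem)
  have hWL : W ≤ L := by
    rintro l (h | h)
    · exact hKL (hPK h)
    · have h1 := L.mul_mem (hKL (hPK h)) hcL
      rwa [inv_mul_cancel_right] at h1
  have hWK : W ⊓ 𝒦 = P := by
    apply le_antisymm
    · rintro l ⟨h | h, hl⟩
      · exact h
      · exfalso
        apply hcK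
        have h1 := 𝒦.mul_mem (𝒦.inv_mem (hPK h)) hl
        have h2 : (l * c⁻¹)⁻¹ * l = c := by group
        rwa [h2] at h1
    · exact le_inf hPW hPK
  have hPi : P.relIndex 𝒦 = S.index := pre_relIndex 𝒦 Q S
  have hPf : P.relIndex 𝒦 ≠ 0 := by
    rw [hPi]
    exact S.index_ne_zero_of_finite
  have hPf' : P.index ≠ 0 := by
    rw [← relIndex_mul_index hPK]
    exact mul_ne_zero hPf h𝒦f
  have hWf : W.index ≠ 0 := fun h => hPf' (Nat.eq_zero_of_zero_dvd (h ▸ index_dvd_of_le hPW))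
  have hWf' : W.relIndex L ≠ 0 := by
    intro h
    apply hWf
    rw [← relIndex_mul_index hWL, h, zero_mul]
  have h2 : c⁻¹ = c := inv_eq_of_mul_eq_one_left hc
  -- every element of `L` is `x` or `x c`
  have hLc : ∀ l ∈ L, ∃ x ∈ 𝒦, l = x ∨ l = x * c := by
    intro l hl
    rcases hL l hl with h | h
    · exact ⟨l, h, Or.inl rfl⟩
    · exact ⟨_, h, Or.inr (by group)⟩
  have hgens : gens 2 I L ⊆ W := by
    rintro x ((⟨a, ha, rfl⟩ | ⟨a, ha, b, hb, rfl⟩) | ⟨hx, w, hw⟩)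
    · obtain ⟨y, hy, rfl | rfl⟩ := hLc a ha
      · exact hPW (hQP (hg (Or.inl (Or.inl ⟨a, hy, rfl⟩))))
      · apply hPW
        have h3 : (y * c) ^ 2 = y * (c * y * c⁻¹ * y⁻¹) * y⁻¹ * y ^ 2 * (c * c) := by
          rw [pow_two, pow_two]
          group
        rw [h3, hc, mul_one]
        exact P.mul_mem (hnorm y hy _ (hcon y hy)) (hQP (hg (Or.inl (Or.inl ⟨y, hy, rfl⟩))))
    · apply hPW
      obtain ⟨y, hy, rfl | rfl⟩ := hLc a ha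
      · obtain ⟨z, hz, rfl | rfl⟩ := hLc b hb
        · exact hsw _ hy _ hz
        · have h3 : ⁅a, z * c⁆ = ⁅a, z⁆ * (z * (a * (c * a⁻¹ * c⁻¹ * (a⁻¹)⁻¹) * a⁻¹) * z⁻¹) := by
            rw [commutatorElement_def, commutatorElement_def]
            group
          rw [h3]
          exact P.mul_mem (hsw _ hy _ hz)
            (hnorm z hz _ (hnorm a hy _ (hcon _ (𝒦.inv_mem hy))))
      · obtain ⟨z, hz, rfl | rfl⟩ := hLc b hb
        · have h3 : ⁅y * c, b⁆ = y * (c * b * c⁻¹ * b⁻¹) * y⁻¹ * ⁅y, b⁆ := by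
            rw [commutatorElement_def, commutatorElement_def]
            group
          rw [h3]
          exact P.mul_mem (hnorm y hy _ (hcon _ hz)) (hsw _ hy _ hz)
        · have h3 : ⁅y * c, z * c⁆ = y * (c * (z * y⁻¹) * c⁻¹ * (z * y⁻¹)⁻¹) * y⁻¹ * ⁅y, z⁆ := by
            rw [commutatorElement_def, commutatorElement_def]
            group
          rw [h3]
          exact P.mul_mem (hnorm y hy _ (hcon _ (𝒦.mul_mem hz (𝒦.inv_mem hy)))) (hsw _ hy _ hz)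
    · obtain ⟨y, hy, rfl | rfl⟩ := hLc x hx
      · exact hPW (hQP (hg (Or.inr ⟨hy, w, hw⟩)))
      · right
        rw [mul_inv_cancel_right, hmem y hy]
        apply hS2
        rw [act_th, ← map_mul, th_eq_one]
        have h3 : (y * c) * (y * c) = y * (c * y * c⁻¹) * (c * c) := by group
        have h4 : (y * c) * (y * c) ∈ 𝒦 := by
          rw [h3, hc, mul_one]
          exact 𝒦.mul_mem hy (h𝒦.conj_mem y hy c)
        have h5 : (y * c) * (y * c) ∈ Q := hg (Or.inr ⟨h4, w, (I w).mul_mem hw hw⟩)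
        rw [h3, hc, mul_one] at h5
        exact h5
  have h3 := hC W hWL (Subgroup.isOpen_mono (hQP.trans hPW) hQo) hWf' hgens
  rw [← hPi, ← hWK, inf_relIndex_right]
  exact (relIndex_le_of_le_right hKL hWf').trans h3

end

/-- **The bound.** -/
theorem bound2 [TopologicalSpace 𝔾] [ContinuousMul 𝔾]
    {Ω : Type} [MulAction 𝔾 Ω] {I : Ω → Subgroup 𝔾}
    (hI : ∀ (g : 𝔾) (w : Ω), ∀ x ∈ I w, g * x * g⁻¹ ∈ I (g • w))
    {𝒦 L₁ L₂ : Subgroup 𝔾} {c : 𝔾} (hc : c * c = 1) (hcK : c ∉ 𝒦)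
    (h𝒦n : 𝒦.Normal) (h𝒦f : 𝒦.index ≠ 0)
    (hK1 : 𝒦 ≤ L₁) (hc1 : c ∈ L₁) (hL1 : ∀ l ∈ L₁, l ∈ 𝒦 ∨ l * c⁻¹ ∈ 𝒦)
    (hK2 : 𝒦 ≤ L₂) (hL2 : ∀ l ∈ L₂, c * l * c⁻¹ * l ∈ 𝒦)
    (hn : ¬ 2 ∣ 𝒦.relIndex L₂)
    {C1 C2 : ℕ} (h1 : RankLe 2 I L₁ C1) (h2 : RankLe 2 I L₂ C2) :
    RankLe 2 I 𝒦 (C1 ^ 2 * C2) := by
  classical
  have hp : Fact (Nat.Prime 2) := ⟨Nat.prime_two⟩
  intro W hWK hWo hWf hg
  obtain ⟨Q, hQW, hQo, hQf, hgQ, hQn⟩ := exists_core hI (K := 𝒦) (D := ⊤)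
    (fun d _ x hx => h𝒦n.conj_mem x hx d) (by rwa [relIndex_top_right]) hWK hWo hWf hg
  have hQK := hQW.trans hWK
  have hQnorm : Q.Normal := ⟨fun x hx g => hQn g trivial x hx⟩
  refine (relIndex_le_of_le_left hQW hQf).trans ?_
  rw [← card_VV 𝒦 Q]
  have hfin : Finite (VV 𝒦 Q) := by
    apply Nat.finite_of_card_ne_zero
    rw [card_VV]
    exact hQf
  have hcomm : ∀ u v : VV 𝒦 Q, u * v = v * u := by
    intro u v
    obtain ⟨x, rfl⟩ := th_surj 𝒦 Q u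
    obtain ⟨y, rfl⟩ := th_surj 𝒦 Q v
    have h3 : th 𝒦 Q ⁅x, y⁆ = 1 := by
      rw [th_eq_one]
      exact hgQ (Or.inl (Or.inr ⟨x, x.2, y, y.2, rfl⟩))
    rw [map_commutatorElement, commutatorElement_eq_one_iff_mul_comm] at h3
    exact h3
  have hpow : ∀ v : VV 𝒦 Q, v ^ 2 = 1 := by
    intro v
    obtain ⟨x, rfl⟩ := th_surj 𝒦 Q v
    rw [← map_pow, th_eq_one]
    exact hgQ (Or.inl (Or.inl ⟨x, x.2, rfl⟩))
  let _ : CommGroup (VV 𝒦 Q) := { (inferInstance : Group (VV 𝒦 Q)) with mul_comm := hcomm }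
  have htriv : ∀ x ∈ 𝒦, act 𝒦 Q x = 1 := by
    intro x hx
    ext1 v
    obtain ⟨y, rfl⟩ := th_surj 𝒦 Q v
    rw [act_th, MulAut.one_apply]
    have h3 : (⟨x * y * x⁻¹, h𝒦n.conj_mem y y.2 x⟩ : 𝒦) = ⟨x, hx⟩ * y * ⟨x, hx⟩⁻¹ := rfl
    rw [h3, map_mul, map_mul, map_inv, hcomm (th 𝒦 Q ⟨x, hx⟩), mul_assoc, mul_inv_cancel, mul_one]
  let D : Subgroup (MulAut (VV 𝒦 Q)) := L₂.map (act 𝒦 Q)
  have hD : ¬ 2 ∣ Nat.card D := by
    intro hdvd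
    apply hn
    refine hdvd.trans ?_
    have h3 : D = ((act 𝒦 Q).comp L₂.subtype).range := by
      ext δ
      constructor
      · rintro ⟨l, hl, rfl⟩
        exact ⟨⟨l, hl⟩, rfl⟩
      · rintro ⟨l, rfl⟩
        exact ⟨l, l.2, rfl⟩
    rw [h3, ← index_ker]
    show _ ∣ (𝒦.subgroupOf L₂).index
    apply index_dvd_of_le
    intro x hx
    exact htriv _ hx
  have hker : (nu D).ker.index ≤ C2 := by
    refine step 𝒦 Q hK2 hn hQK hQo hQf hgQ ?_ h2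
    intro l hl v
    rw [MonoidHom.mem_ker, map_mul, map_inv, nu_act D ⟨l, hl, rfl⟩, mul_inv_cancel]
  refine card_two (γ := act 𝒦 Q c) ?_ hpow D hD ?_ ?_ hker
  · rw [← map_mul, hc, map_one]
  · rintro _ ⟨l, hl, rfl⟩
    have h3 := htriv _ (hL2 l hl)
    have h4 : l⁻¹ * c = (c * l * c⁻¹ * l)⁻¹ * (c * l) := by group
    rw [← map_inv, ← map_mul, ← map_mul, h4, map_mul (act 𝒦 Q) (c * l * c⁻¹ * l)⁻¹, map_inv, h3,
      inv_one, one_mul]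
  · intro S hS hS2
    exact step2 𝒦 Q hc hcK h𝒦f hK1 hc1 hL1 hQK hQo hQf hgQ hS hS2 h1

end Pool.Agent.W5h33.TW
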