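import Pool.Agent.W5h33.TW.Fld

/-!
# `p = 2`: the layers
-/

set_option autoImplicit false

namespace Pool.Agent.W5h33.TW

open IntermediateField Module Pool.Agent.Q60.MU Pool.Agent.W5h77.MB
open scoped commutatorElement ComplexConjugate Pointwise

/-- Subfields. -/
theorem deg_down {p m : ℕ} (hp : p.Prime) {c : Gal(Qb/ℚ)} (hcc : c * c = 1)
    {F K R : IntermediateField ℚ Qb} [FiniteDimensional ℚ K]
    [hKg : IsGalois ℚ K] (hFK : F ≤ K) (hR : IsLayer p m R) {C : ℕ} (h : DegLeW p c (K ⊔ R) C) :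
    DegLeW p c (F ⊔ R) (C * K.fixingSubgroup.index) := by
  have hfR := layer_fd hp hR
  have hfF : FiniteDimensional ℚ F :=
    Submodule.finiteDimensional_of_le (S₁ := Subalgebra.toSubmodule F.toSubalgebra)
      (S₂ := Subalgebra.toSubmodule K.toSubalgebra) hFK
  have hKn : K.fixingSubgroup.Normal := (InfiniteGalois.normal_iff_isGalois K).2 hKg
  rw [← rankLeW_iff hcc] at h ⊢
  rw [fixingSubgroup_sup] at h ⊢
  have h1 : (K.fixingSubgroup ⊓ R.fixingSubgroup).relIndex (F.fixingSubgroup ⊓ R.fixingSubgroup) =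
      K.fixingSubgroup.relIndex (F.fixingSubgroup ⊓ R.fixingSubgroup) := by
    have hle : K.fixingSubgroup ≤ F.fixingSubgroup := fixingSubgroup_le hFK
    rw [← Subgroup.inf_relIndex_right, ← Subgroup.inf_relIndex_right K.fixingSubgroup]
    congr 1
    ext x
    simp only [Subgroup.mem_inf]
    tauto
  have h2 : K.fixingSubgroup.relIndex (F.fixingSubgroup ⊓ R.fixingSubgroup) ∣
      K.fixingSubgroup.index := Subgroup.relIndex_dvd_index_of_normal _ _
  have h3 : (K.fixingSubgroup ⊓ R.fixingSubgroup).relIndex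
      (F.fixingSubgroup ⊓ R.fixingSubgroup) ≠ 0 := by
    rw [h1]
    intro h
    rw [h] at h2
    exact index_ne_zero' K (Nat.eq_zero_of_zero_dvd h2)
  refine (RankLe.of_le (inf_le_inf_right _ (fixingSubgroup_le hFK)) (by
    rw [Subgroup.coe_inf]
    exact K.fixingSubgroup_isOpen.inter R.fixingSubgroup_isOpen) h3 h).mono ?_
  rw [h1]
  exact Nat.mul_le_mul_left _ (Nat.le_of_dvd (Nat.pos_of_ne_zero (index_ne_zero' K)) h2)

theorem conj_sq {ι : Qb →+* ℂ} {c : Gal(Qb/ℚ)} (hc : ∀ x, ι (c x) = conj (ι x)) : c * c = 1 := by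
  ext x
  apply ι.injective
  show ι (c (c x)) = ι x
  rw [hc, hc, Complex.conj_conj]

/-- At most one prime above `2`. -/
theorem one_primeW {p : ℕ} [hp : Fact p.Prime] {c : Gal(Qb/ℚ)} (hcc : c * c = 1)
    (M : IntermediateField ℚ Qb) [FiniteDimensional ℚ M]
    (h1 : OnePrime p M) (h : DegLeW p c M 1) {m : ℕ} {R : IntermediateField ℚ Qb}
    [FiniteDimensional ℚ R] [hRg : IsGalois ℚ R] (hR : IsLayer p m R)
    (hcR : c ∈ R.fixingSubgroup) : DegLeW p c (M ⊔ R) 1 := by
  rw [← rankLeW_iff hcc] at h ⊢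
  rw [fixingSubgroup_sup]
  have hRn : R.fixingSubgroup.Normal := (InfiniteGalois.normal_iff_isGalois R).2 hRg
  have hidx : R.fixingSubgroup.index = p ^ m := by
    rw [← hR.1, finrank_eq_fixingSubgroup_index Qb R]
  have hinr : ∀ g : Gal(Qb/ℚ), inf c (Sum.inr g) ≤ R.fixingSubgroup := by
    intro g
    show Subgroup.zpowers (g * c * g⁻¹) ≤ R.fixingSubgroup
    rw [Subgroup.zpowers_le]
    exact hRn.conj_mem c hcR g
  by_cases hex : ∃ w : ValuationSubring Qb, (p : Qb) ∈ w.nonunits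
  · obtain ⟨w, hw⟩ := hex
    refine crit (inf_conj c) hRn hidx (Sum.inl w) (fun A => ?_) h
    rcases A with A | g
    · by_cases hA : (p : Qb) ∈ A.nonunits
      · obtain ⟨g, hg, h2⟩ := conj_of_one hp.out M h1 hA hw
        exact Or.inr ⟨g, hg, congrArg Sum.inl h2⟩
      · exact Or.inl (inf_le_left.trans (inertia_le_layer hp.out hR hA))
    · exact Or.inl (inf_le_left.trans (hinr g))
  · refine crit (inf_conj c) hRn hidx (Sum.inl (⊤ : ValuationSubring Qb)) (fun A => ?_) h
    rcases A with A | g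
    · exact Or.inl (inf_le_left.trans (inertia_le_layer hp.out hR fun h2 => hex ⟨A, h2⟩))
    · exact Or.inl (inf_le_left.trans (hinr g))

end Pool.Agent.W5h33.TW
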